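import Pool.Agent.H91.Spg

set_option autoImplicit false

open H91.Spg in
theorem Pool.Agent.Results.MP_0b6f3a_an.NotAnalytic.result :
    ∃ (d : ℕ) (n : Fin d → ℕ) (E : Set ((i : Fin d) → Fin (n i))), E.Nonempty ∧
    ∀ S : Set (H91.Spg.Par d n), H91.Spg.SBar d n ⊆ S → ¬ H91.Spg.RA (H91.Spg.HD E) S :=
  main
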